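import Mathlib

/-!
MP_8999af_al (frozen statement S02194): the product of four homomorphisms of a complete metric group can be of
Baire class one and discontinuous.
-/

set_option autoImplicit false

open Filter Topology Set

namespace Pool.Agent.Y938.BC

/-- the permutations of `ℤ₂ × {0,1,2}`, as a discrete group -/
def Gam : Type := Equiv.Perm (ℤ_[2] × Fin 3)

noncomputable instance : Group Gam := inferInstanceAs (Group (Equiv.Perm (ℤ_[2] × Fin 3)))

open Classical in
noncomputable instance : MetricSpace Gam where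
  dist x y := if x = y then 0 else 1
  dist_self x := by simp
  dist_comm x y := by simp only [eq_comm]
  dist_triangle x y z := by
    change (if x = z then (0:ℝ) else 1) ≤ (if x = y then (0:ℝ) else 1) + (if y = z then (0:ℝ) else 1)
    by_cases h1 : x = y
    · by_cases h2 : y = z
      · simp [h1, h2]
      · simp [h1, h2]
    · by_cases h2 : y = z
      · rw [if_neg h1]; split_ifs <;> norm_num
      · rw [if_neg h1, if_neg h2]; split_ifs <;> norm_num
  eq_of_dist_eq_zero := by
    intro x y h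
    change (if x = y then (0:ℝ) else 1) = 0 at h
    by_contra hn
    rw [if_neg hn] at h
    norm_num at h

theorem dist_lt {x y : Gam} (h : dist x y < 1) : x = y := by
  by_contra hn
  have h2 : dist x y = 1 := if_neg hn
  rw [h2] at h
  exact lt_irrefl _ h

instance : DiscreteTopology Gam := by
  refine discreteTopology_iff_isOpen_singleton.2 (fun x => ?_)
  rw [Metric.isOpen_iff]
  intro y hy
  rw [mem_singleton_iff] at hy
  refine ⟨1, one_pos, fun z hz => ?_⟩
  rw [mem_singleton_iff, ← hy]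
  exact dist_lt (Metric.mem_ball.1 hz)

instance : IsTopologicalGroup Gam where
  continuous_mul := continuous_of_discreteTopology
  continuous_inv := continuous_of_discreteTopology

instance : CompleteSpace Gam := by
  refine Metric.complete_of_cauchySeq_tendsto (fun u hu => ?_)
  obtain ⟨N, hN⟩ := Metric.cauchySeq_iff'.1 hu 1 one_pos
  refine ⟨u N, tendsto_const_nhds.congr' ?_⟩
  filter_upwards [eventually_ge_atTop N] with n hn
  exact (dist_lt (hN n hn)).symm

/-- translations -/
noncomputable def wp (v : ℤ_[2]) : Equiv.Perm (ℤ_[2] × Fin 3) where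
  toFun x := (v + x.1, x.2)
  invFun x := (-v + x.1, x.2)
  left_inv x := by simp
  right_inv x := by simp

/-- translations as a homomorphism -/
noncomputable def w : Multiplicative ℤ_[2] →* Gam where
  toFun v := wp v.toAdd
  map_one' := by
    refine Equiv.ext (fun x => ?_)
    change (((1 : Multiplicative ℤ_[2]).toAdd) + x.1, x.2) = x
    simp
  map_mul' := by
    intro u v
    refine Equiv.ext (fun x => ?_)
    change (((u * v).toAdd) + x.1, x.2) = (u.toAdd + (v.toAdd + x.1), x.2)
    simp [add_assoc]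

open Classical in
/-- a lamp at the position zero -/
noncomputable def lamp (σ : Equiv.Perm (Fin 3)) : Equiv.Perm (ℤ_[2] × Fin 3) where
  toFun x := if x.1 = 0 then (x.1, σ x.2) else x
  invFun x := if x.1 = 0 then (x.1, σ.symm x.2) else x
  left_inv x := by
    by_cases h : x.1 = 0
    · simp [h]; exact Prod.ext h.symm rfl
    · simp [h]
  right_inv x := by
    by_cases h : x.1 = 0
    · simp [h]; exact Prod.ext h.symm rfl
    · simp [h]

theorem lamp_of_ne (σ : Equiv.Perm (Fin 3)) (x : ℤ_[2] × Fin 3) (h : x.1 ≠ 0) : lamp σ x = x := if_neg h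

theorem lamp_inv_of_ne (σ : Equiv.Perm (Fin 3)) (x : ℤ_[2] × Fin 3) (h : x.1 ≠ 0) :
    (lamp σ)⁻¹ x = x := by
  rw [Equiv.Perm.inv_eq_iff_eq, lamp_of_ne σ x h]

/-- the two lamps -/
noncomputable def a : Gam := lamp (Equiv.swap 0 1)
noncomputable def b : Gam := lamp (Equiv.swap 1 2)

theorem comm_lamp (v : ℤ_[2]) (hv : v ≠ 0) (σ τ : Equiv.Perm (Fin 3)) :
    Commute (wp v * lamp σ * (wp v)⁻¹) (lamp τ) := by
  apply Equiv.Perm.Disjoint.commute
  intro x
  by_cases hx : x.1 = 0
  · left
    have h1 : ((wp v)⁻¹ x) = (-v + x.1, x.2) := rfl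
    change wp v (lamp σ ((wp v)⁻¹ x)) = x
    rw [h1, lamp_of_ne]
    · change (v + (-v + x.1), x.2) = x
      simp
    · change -v + x.1 ≠ 0
      rw [hx, add_zero]
      exact neg_ne_zero.2 hv
  · right
    exact lamp_of_ne τ x hx

theorem word {Γ : Type*} [Group Γ] (w a b : Γ) (h1 : Commute (w * a * w⁻¹) a)
    (h2 : Commute (w * a * w⁻¹) b) :
    w * (a * w⁻¹ * a⁻¹) * (b * a * w * a⁻¹ * b⁻¹) * (b * w⁻¹ * b⁻¹) = a⁻¹ * b * a * b⁻¹ := by
  have h3 : Commute (w * a * w⁻¹) (a⁻¹ * b * a) := (h1.inv_right.mul_right h2).mul_right h1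
  have h4 : w * (a * w⁻¹ * a⁻¹) * (b * a * w * a⁻¹ * b⁻¹) * (b * w⁻¹ * b⁻¹) =
      (w * a * w⁻¹) * (a⁻¹ * b * a) * (w * a * w⁻¹)⁻¹ * b⁻¹ := by group
  rw [h4, h3.eq]
  group

/-- the constant value off zero -/
noncomputable def t : Gam := a⁻¹ * b * a * b⁻¹

theorem t_ne : t ≠ 1 := by
  intro h
  have h1 : b * a = a * b := by
    have : a⁻¹ * b * a * b⁻¹ = 1 := h
    have h2 : a * (a⁻¹ * b * a * b⁻¹) * b = a * 1 * b := by rw [this]
    calc b * a = a * (a⁻¹ * b * a * b⁻¹) * b := by group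
      _ = a * 1 * b := h2
      _ = a * b := by group
  have h3 : (lamp (Equiv.swap 1 2) * lamp (Equiv.swap 0 1) : Equiv.Perm (ℤ_[2] × Fin 3)) (0, 0) =
      (lamp (Equiv.swap 0 1) * lamp (Equiv.swap 1 2) : Equiv.Perm (ℤ_[2] × Fin 3)) (0, 0) :=
    congrArg (fun e : Equiv.Perm (ℤ_[2] × Fin 3) => e (0, 0)) h1
  have h4 : ∀ (σ : Equiv.Perm (Fin 3)) (i : Fin 3), lamp σ (0, i) = (0, σ i) := fun σ i => if_pos rfl
  rw [Equiv.Perm.mul_apply, Equiv.Perm.mul_apply, h4, h4, h4, h4] at h3
  have h5 := congrArg Prod.snd h3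
  revert h5
  decide

/-- the group -/
abbrev GG : Type := Multiplicative ℤ_[2] × Gam

/-- second component homomorphism -/
noncomputable def mk (f : Multiplicative ℤ_[2] →* Gam) : GG →* GG :=
  (MonoidHom.inr (Multiplicative ℤ_[2]) Gam).comp (f.comp (MonoidHom.fst (Multiplicative ℤ_[2]) Gam))

/-- conjugation -/
noncomputable def cj (g : Gam) (f : Multiplicative ℤ_[2] →* Gam) : Multiplicative ℤ_[2] →* Gam :=
  (MulAut.conj g).toMonoidHom.comp f

/-- inverse translation -/
noncomputable def wi : Multiplicative ℤ_[2] →* Gam :=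
  w.comp (invMonoidHom : Multiplicative ℤ_[2] →* Multiplicative ℤ_[2])

/-- the four homomorphisms -/
noncomputable def UU : Fin 4 → (GG →* GG) :=
  ![mk w, mk (cj a wi), mk (cj (b * a) w), mk (cj b wi)]

theorem prod_eq (x : GG) :
    (List.ofFn (fun i => UU i x)).prod =
      (1, w x.1 * (a * (w x.1)⁻¹ * a⁻¹) * (b * a * w x.1 * a⁻¹ * b⁻¹) * (b * (w x.1)⁻¹ * b⁻¹)) := by
  have h0 : UU 0 x = (1, w x.1) := rfl
  have h1 : UU 1 x = (1, a * (w x.1)⁻¹ * a⁻¹) := by
    rw [← map_inv]; rfl
  have h2 : UU 2 x = (1, b * a * w x.1 * a⁻¹ * b⁻¹) := by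
    have : UU 2 x = (1, b * a * w x.1 * (b * a)⁻¹) := rfl
    rw [this, mul_inv_rev]
    simp [mul_assoc]
  have h3 : UU 3 x = (1, b * (w x.1)⁻¹ * b⁻¹) := by
    rw [← map_inv]; rfl
  simp only [List.ofFn_succ, List.ofFn_zero, List.prod_cons, List.prod_nil]
  change UU 0 x * (UU 1 x * (UU 2 x * (UU 3 x * 1))) = _
  rw [h0, h1, h2, h3]
  refine Prod.ext ?_ ?_
  · simp
  · change w x.1 * ((a * (w x.1)⁻¹ * a⁻¹) * ((b * a * w x.1 * a⁻¹ * b⁻¹) * ((b * (w x.1)⁻¹ * b⁻¹) * 1))) = _
    simp [mul_assoc]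

open Classical in
theorem prod_val (x : GG) :
    (List.ofFn (fun i => UU i x)).prod = (1, if x.1 = 1 then 1 else t) := by
  rw [prod_eq]
  by_cases h : x.1 = 1
  · rw [if_pos h, h, map_one]
    refine Prod.ext rfl ?_
    change (1 : Gam) * (a * 1⁻¹ * a⁻¹) * (b * a * 1 * a⁻¹ * b⁻¹) * (b * 1⁻¹ * b⁻¹) = 1
    group
  · rw [if_neg h]
    refine Prod.ext rfl ?_
    have hv : x.1.toAdd ≠ 0 := fun h0 => h (by
      apply Multiplicative.toAdd.injective
      simpa using h0)
    exact word (w x.1) a b (comm_lamp _ hv _ _) (comm_lamp _ hv _ _)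

theorem neg_main :
    ¬ (∀ (G : Type) [Group G] [MetricSpace G] [IsTopologicalGroup G] [CompleteSpace G],
      (∃ a b : G, a * b ≠ b * a) →
      ∀ (n : ℕ) (U : Fin n → G →* G),
        (∀ S : Set (G → G),
          (∀ f : G → G, Continuous f → f ∈ S) →
          (∀ (f : ℕ → G → G) (g : G → G), (∀ k, f k ∈ S) →
            (∀ x, Filter.Tendsto (fun k => f k x) Filter.atTop (nhds (g x))) → g ∈ S) →
          (fun x => (List.ofFn (fun i => U i x)).prod) ∈ S) →
        Continuous (fun x => (List.ofFn (fun i => U i x)).prod)) := by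
  classical
  intro H
  have hnc : ∃ p q : GG, p * q ≠ q * p := by
    refine ⟨(1, a), (1, b), fun h => t_ne ?_⟩
    have h1 : a * b = b * a := congrArg Prod.snd h
    change a⁻¹ * b * a * b⁻¹ = 1
    calc a⁻¹ * b * a * b⁻¹ = a⁻¹ * (b * a) * b⁻¹ := by group
      _ = a⁻¹ * (a * b) * b⁻¹ := by rw [h1]
      _ = 1 := by group
  have : CompleteSpace (Multiplicative ℤ_[2]) := inferInstanceAs (CompleteSpace ℤ_[2])
  have hc := H GG hnc 4 UU (by
    intro S hS hlim
    let A : ℕ → Set GG := fun k => {x : GG | ‖x.1.toAdd‖ ≤ (2 : ℝ) ^ (-(k : ℤ))}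
    refine hlim (fun k x => if x ∈ A k then 1 else (1, t)) _ (fun k => hS _ ?_) (fun x => ?_)
    · have hcl : IsClopen (A k) := by
        have h1 : IsClopen (Metric.closedBall (0 : ℤ_[2]) ((2 : ℝ) ^ (-(k : ℤ)))) :=
          IsUltrametricDist.isClopen_closedBall _ (by positivity)
        have h2 : Continuous (fun x : GG => x.1.toAdd) := continuous_fst
        have h3 : A k = (fun x : GG => x.1.toAdd) ⁻¹'
            (Metric.closedBall (0 : ℤ_[2]) ((2 : ℝ) ^ (-(k : ℤ)))) := by
          ext x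
          simp [A]
        rw [h3]
        exact h1.preimage h2
      have hpw : (fun x : GG => if x ∈ A k then (1 : GG) else (1, t)) =
          (A k).piecewise (fun _ => (1 : GG)) (fun _ => (1, t)) := rfl
      rw [hpw]
      exact Continuous.piecewise (by rw [hcl.frontier_eq]; simp) continuous_const continuous_const
    · rw [prod_val]
      by_cases hx : x.1 = 1
      · rw [if_pos hx]
        refine tendsto_const_nhds.congr (fun k => ?_)
        have hm : x ∈ A k := by
          change ‖x.1.toAdd‖ ≤ (2 : ℝ) ^ (-(k : ℤ))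
          rw [hx]
          simp
        rw [if_pos hm]
        rfl
      · rw [if_neg hx]
        have hpos : 0 < ‖x.1.toAdd‖ := by
          rw [norm_pos_iff]
          intro h0
          exact hx (Multiplicative.toAdd.injective (by simpa using h0))
        have hlim2 : Tendsto (fun k : ℕ => (2 : ℝ) ^ (-(k : ℤ))) atTop (𝓝 0) := by
          have h5 : (fun k : ℕ => (2 : ℝ) ^ (-(k : ℤ))) = fun k : ℕ => ((1 : ℝ) / 2) ^ k := by
            funext k
            rw [zpow_neg, zpow_natCast, one_div, inv_pow]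
          rw [h5]
          exact tendsto_pow_atTop_nhds_zero_of_lt_one (by norm_num) (by norm_num)
        refine tendsto_const_nhds.congr' ?_
        filter_upwards [hlim2.eventually_lt_const hpos] with k hk
        have hm : x ∉ A k := fun h => absurd (lt_of_le_of_lt h hk) (lt_irrefl _)
        rw [if_neg hm])
  -- discontinuity at the identity
  have hc2 : Continuous (fun v : ℤ_[2] =>
      ((List.ofFn (fun i => UU i ((Multiplicative.ofAdd v, 1) : GG))).prod).2) :=
    continuous_snd.comp (hc.comp ((continuous_ofAdd).prodMk continuous_const))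
  have hval : ∀ v : ℤ_[2], ((List.ofFn (fun i => UU i ((Multiplicative.ofAdd v, 1) : GG))).prod).2 =
      if v = 0 then 1 else t := by
    intro v
    rw [prod_val]
    change (if Multiplicative.ofAdd v = 1 then (1 : Gam) else t) = _
    simp only [ofAdd_eq_one]
  simp only [hval] at hc2
  have hop : IsOpen ((fun v : ℤ_[2] => if v = 0 then (1 : Gam) else t) ⁻¹' {1}) :=
    (isOpen_discrete ({1} : Set Gam)).preimage hc2
  have hset : ((fun v : ℤ_[2] => if v = 0 then (1 : Gam) else t) ⁻¹' {1}) = {0} := by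
    ext v
    simp only [mem_preimage, mem_singleton_iff]
    by_cases hv : v = 0
    · simp [hv]
    · simp [hv, t_ne]
  rw [hset, Metric.isOpen_iff] at hop
  obtain ⟨ε, hε, hball⟩ := hop 0 rfl
  obtain ⟨k, hk⟩ := exists_pow_lt_of_lt_one hε (show ((1 : ℝ) / 2) < 1 by norm_num)
  have hmem : ((2 : ℤ_[2]) ^ k) ∈ Metric.ball (0 : ℤ_[2]) ε := by
    rw [mem_ball_zero_iff]
    have h6 : ‖((2 : ℕ) : ℤ_[2]) ^ k‖ = ((2 : ℕ) : ℝ) ^ (-(k : ℤ)) := PadicInt.norm_p_pow k
    have h7 : ‖((2 : ℤ_[2]) ^ k)‖ = (2 : ℝ) ^ (-(k : ℤ)) := by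
      simpa using h6
    rw [h7, zpow_neg, zpow_natCast]
    calc ((2 : ℝ) ^ k)⁻¹ = (1 / 2) ^ k := by rw [one_div, inv_pow]
      _ < ε := hk
  have h8 := hball hmem
  rw [mem_singleton_iff] at h8
  exact pow_ne_zero k (by norm_num) h8

end Pool.Agent.Y938.BC
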